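import Mathlib

/-!
# MP_e47ea7_co : requiring rainbow `H`-freeness can increase the weak rainbow saturation number

For every `n ≥ 3` and `H = K_n` minus an edge, `rwsat(n,H) = C(n,2) - 1` but
`rwsat*(n,H) = C(n,2)`.
-/

namespace Pool.Agent.Results.MP_e47ea7_co.RainbowFreeCostsMore

open SimpleGraph

variable {V W : Type*}

/-- `f` is a rainbow copy of `H` in the graph `G` with edge colouring `χ`. -/
def IsRainbow (H : SimpleGraph W) (G : SimpleGraph V) (χ : Sym2 V → ℕ) (f : Copy H G) : Prop :=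
  Set.InjOn (fun e => χ (Sym2.map f e)) H.edgeSet

/-- `(G, χ)` is rainbow `H`-free. -/
def RainbowFree (H : SimpleGraph W) (G : SimpleGraph V) (χ : Sym2 V → ℕ) : Prop :=
  ¬ ∃ f : Copy H G, IsRainbow H G χ f

/-- The edge `e` lies in a rainbow copy of `H` in `(G, χ)`. -/
def RainbowThrough (H : SimpleGraph W) (G : SimpleGraph V) (χ : Sym2 V → ℕ) (e : Sym2 V) : Prop :=
  ∃ f : Copy H G, IsRainbow H G χ f ∧ ∃ e' ∈ H.edgeSet, Sym2.map f e' = e

open Classical in
/-- `(G, χ)` is weakly `H`-rainbow saturated: there is an ordering `l` of the non-edges of `G` such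
that whenever they are given pairwise distinct colours `c` (the non-edge `e` receives the colour
`c e`) and added one by one, each added edge `l[i]` lies in a rainbow copy of `H` in the graph
formed by `G` and the first `i + 1` edges of `l`. -/
def WeaklySaturated (H : SimpleGraph W) (G : SimpleGraph V) (χ : Sym2 V → ℕ) : Prop :=
  ∃ l : List (Sym2 V), l.Nodup ∧
    (∀ e : Sym2 V, e ∈ l ↔ e ∈ (⊤ : SimpleGraph V).edgeSet ∧ e ∉ G.edgeSet) ∧
    ∀ c : Sym2 V → ℕ, Set.InjOn c {e | e ∈ l} →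
      ∀ (i : ℕ) (hi : i < l.length),
        RainbowThrough H (G ⊔ fromEdgeSet {e | e ∈ l.take (i + 1)})
          (fun e => if e ∈ G.edgeSet then χ e else c e) l[i]

/-- The weak rainbow saturation number. -/
noncomputable def rwsat (n : ℕ) (H : SimpleGraph W) : ℕ∞ :=
  sInf {k : ℕ∞ | ∃ (G : SimpleGraph (Fin n)) (χ : Sym2 (Fin n) → ℕ),
    WeaklySaturated H G χ ∧ G.edgeSet.encard = k}

/-- The same minimum over rainbow `H`-free edge-coloured graphs (`⊤` if there are none). -/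
noncomputable def rwsatStar (n : ℕ) (H : SimpleGraph W) : ℕ∞ :=
  sInf {k : ℕ∞ | ∃ (G : SimpleGraph (Fin n)) (χ : Sym2 (Fin n) → ℕ),
    RainbowFree H G χ ∧ WeaklySaturated H G χ ∧ G.edgeSet.encard = k}

lemma ne01 (n : ℕ) : (0 : Fin (n + 3)) ≠ 1 := by
  intro h; have := congrArg Fin.val h; simp at this

lemma ne02 (n : ℕ) : (0 : Fin (n + 3)) ≠ 2 := by
  intro h; have := congrArg Fin.val h; rw [Fin.val_two] at this; simp at this

lemma ne12 (n : ℕ) : (1 : Fin (n + 3)) ≠ 2 := by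
  intro h; have := congrArg Fin.val h; rw [Fin.val_two, Fin.val_one] at this; omega

lemma d12 (n : ℕ) : s((0 : Fin (n + 3)), 1) ≠ s(0, 2) := by
  intro h
  rw [Sym2.eq_iff] at h
  have h1 := ne01 n
  have h2 := ne02 n
  have h3 := ne12 n
  tauto

lemma d13 (n : ℕ) : s((0 : Fin (n + 3)), 1) ≠ s(1, 2) := by
  intro h
  rw [Sym2.eq_iff] at h
  have h1 := ne01 n
  have h2 := ne02 n
  have h3 := ne12 n
  tauto

lemma d23 (n : ℕ) : s((0 : Fin (n + 3)), 2) ≠ s(1, 2) := by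
  intro h
  rw [Sym2.eq_iff] at h
  have h1 := ne01 n
  have h2 := ne02 n
  have h3 := ne12 n
  tauto

/-- The complete graph on `n + 3` vertices minus the edge `01`. -/
def KMinus (n : ℕ) : SimpleGraph (Fin (n + 3)) := (⊤ : SimpleGraph _).deleteEdges {s(0, 1)}

lemma mem_KMinus {n : ℕ} {e : Sym2 (Fin (n + 3))} :
    e ∈ (KMinus n).edgeSet ↔ e ∈ (⊤ : SimpleGraph (Fin (n + 3))).edgeSet ∧ e ≠ s(0, 1) := by
  unfold KMinus
  rw [edgeSet_deleteEdges]
  rfl

lemma map_mem_top {n : ℕ} {f : Fin (n + 3) → Fin (n + 3)} (hf : Function.Injective f)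
    {e : Sym2 (Fin (n + 3))} :
    Sym2.map f e ∈ (⊤ : SimpleGraph (Fin (n + 3))).edgeSet ↔
      e ∈ (⊤ : SimpleGraph (Fin (n + 3))).edgeSet := by
  induction e using Sym2.ind with
  | _ x y => simp [hf.eq_iff]

/-- A rainbow copy of `K_n⁻` on `n` vertices misses exactly one pair. -/
lemma missing {n : ℕ} {G : SimpleGraph (Fin (n + 3))} {χ : Sym2 (Fin (n + 3)) → ℕ}
    (f : Copy (KMinus n) G) (hf : IsRainbow (KMinus n) G χ f) :
    ∃ m ∈ (⊤ : SimpleGraph (Fin (n + 3))).edgeSet,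
      (∀ g ∈ (⊤ : SimpleGraph (Fin (n + 3))).edgeSet, g ≠ m → g ∈ G.edgeSet) ∧
      (∀ g ∈ (⊤ : SimpleGraph (Fin (n + 3))).edgeSet, ∀ g' ∈ (⊤ : SimpleGraph (Fin (n + 3))).edgeSet,
        g ≠ m → g' ≠ m → χ g = χ g' → g = g') ∧
      (∀ e' ∈ (KMinus n).edgeSet, Sym2.map f e' ≠ m) := by
  have hinj : Function.Injective f := f.injective
  have hsurj : Function.Surjective f := Finite.surjective_of_injective hinj
  have hmi : Function.Injective (Sym2.map f) := Sym2.map.injective hinj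
  have hms : ∀ g : Sym2 (Fin (n + 3)), ∃ e, Sym2.map f e = g := by
    intro g
    induction g using Sym2.ind with
    | _ a b =>
      obtain ⟨a', rfl⟩ := hsurj a
      obtain ⟨b', rfl⟩ := hsurj b
      exact ⟨s(a', b'), rfl⟩
  have key : ∀ g ∈ (⊤ : SimpleGraph (Fin (n + 3))).edgeSet, g ≠ Sym2.map f s(0, 1) →
      ∃ e ∈ (KMinus n).edgeSet, Sym2.map f e = g := by
    intro g hg hgm
    obtain ⟨e, rfl⟩ := hms g
    refine ⟨e, mem_KMinus.2 ⟨(map_mem_top hinj).1 hg, ?_⟩, rfl⟩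
    rintro rfl
    exact hgm rfl
  refine ⟨Sym2.map f s(0, 1), (map_mem_top hinj).2 (by simp), ?_, ?_, ?_⟩
  · intro g hg hgm
    obtain ⟨e, he, rfl⟩ := key g hg hgm
    exact f.toHom.map_mem_edgeSet he
  · intro g hg g' hg' hgm hgm' hχ
    obtain ⟨e, he, rfl⟩ := key g hg hgm
    obtain ⟨e', he', rfl⟩ := key g' hg' hgm'
    rw [hf he he' hχ]
  · intro e' he' h
    exact (mem_KMinus.1 he').2 (hmi h)

lemma exists_perm {n : ℕ} {a b : Fin (n + 3)} (hab : a ≠ b) :
    ∃ σ : Equiv.Perm (Fin (n + 3)), σ 0 = a ∧ σ 1 = b := by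
  let τ : Equiv.Perm (Fin (n + 3)) := Equiv.swap 0 a
  have hτ0 : τ 0 = a := Equiv.swap_apply_left 0 a
  have hx : τ 1 ≠ a := by
    rw [← hτ0]
    intro h
    have := τ.injective h
    simp at this
  refine ⟨τ.trans (Equiv.swap (τ 1) b), ?_, ?_⟩
  · rw [Equiv.trans_apply, hτ0]
    exact Equiv.swap_apply_of_ne_of_ne hx.symm hab
  · rw [Equiv.trans_apply]
    exact Equiv.swap_apply_left _ _

/-- Conversely, a rainbow copy of `K_n⁻` missing a prescribed pair. -/
lemma exists_copy {n : ℕ} {G : SimpleGraph (Fin (n + 3))} {χ : Sym2 (Fin (n + 3)) → ℕ}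
    {m e : Sym2 (Fin (n + 3))} (hm : m ∈ (⊤ : SimpleGraph (Fin (n + 3))).edgeSet)
    (he : e ∈ (⊤ : SimpleGraph (Fin (n + 3))).edgeSet) (hem : e ≠ m)
    (h1 : ∀ g ∈ (⊤ : SimpleGraph (Fin (n + 3))).edgeSet, g ≠ m → g ∈ G.edgeSet)
    (h2 : ∀ g ∈ (⊤ : SimpleGraph (Fin (n + 3))).edgeSet,
      ∀ g' ∈ (⊤ : SimpleGraph (Fin (n + 3))).edgeSet, g ≠ m → g' ≠ m → χ g = χ g' → g = g') :
    RainbowThrough (KMinus n) G χ e := by
  induction m using Sym2.ind with
  | _ a b =>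
    have hab : a ≠ b := by simpa using hm
    obtain ⟨σ, h0, h1'⟩ := exists_perm hab
    have hmap : Sym2.map σ s(0, 1) = s(a, b) := by simp [h0, h1']
    have hmi : Function.Injective (Sym2.map σ) := Sym2.map.injective σ.injective
    have hne : ∀ e ∈ (KMinus n).edgeSet, Sym2.map σ e ∈ (⊤ : SimpleGraph (Fin (n + 3))).edgeSet ∧
        Sym2.map σ e ≠ s(a, b) := by
      intro e he
      rw [mem_KMinus] at he
      refine ⟨(map_mem_top σ.injective).2 he.1, ?_⟩
      rw [← hmap]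
      exact fun h => he.2 (hmi h)
    let f : Copy (KMinus n) G :=
      ⟨⟨σ, fun {x y} hxy => by
        have := hne s(x, y) hxy
        exact h1 _ this.1 this.2⟩, σ.injective⟩
    refine ⟨f, ?_, Sym2.map σ.symm e, ?_, ?_⟩
    · intro e he e' he' hχ
      exact hmi (h2 _ (hne e he).1 _ (hne e' he').1 (hne e he).2 (hne e' he').2 hχ)
    · rw [mem_KMinus]
      refine ⟨(map_mem_top σ.symm.injective).2 he, ?_⟩
      intro h
      apply hem
      rw [← hmap, ← h, Sym2.map_map]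
      simp
    · show Sym2.map σ (Sym2.map σ.symm e) = e
      rw [Sym2.map_map]
      simp

/-- An injective recolouring of the non-edges in which `e` receives a prescribed colour. -/
lemma exists_colouring {n : ℕ} (e : Sym2 (Fin (n + 3))) (k : ℕ) :
    ∃ c : Sym2 (Fin (n + 3)) → ℕ, Function.Injective c ∧ c e = k := by
  obtain ⟨c₀, hc₀⟩ := Countable.exists_injective_nat (Sym2 (Fin (n + 3)))
  refine ⟨fun x => Equiv.swap (c₀ e) k (c₀ x), ?_, ?_⟩
  · exact (Equiv.swap (c₀ e) k).injective.comp hc₀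
  · simp

/-- The first step of the process. -/
lemma first_step {n : ℕ} {G : SimpleGraph (Fin (n + 3))} {χ : Sym2 (Fin (n + 3)) → ℕ}
    (h : WeaklySaturated (KMinus n) G χ) (hG : G ≠ ⊤) :
    ∃ e₁ ∈ (⊤ : SimpleGraph (Fin (n + 3))).edgeSet, e₁ ∉ G.edgeSet ∧
      ∀ k : ℕ, ∃ m ∈ (⊤ : SimpleGraph (Fin (n + 3))).edgeSet, m ≠ e₁ ∧
        (∀ g ∈ (⊤ : SimpleGraph (Fin (n + 3))).edgeSet, g ≠ m → g ≠ e₁ → g ∈ G.edgeSet) ∧
        (∀ g ∈ G.edgeSet, ∀ g' ∈ G.edgeSet, g ≠ m → g' ≠ m → χ g = χ g' → g = g') ∧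
        (∀ g ∈ G.edgeSet, g ≠ m → χ g ≠ k) := by
  classical
  obtain ⟨l, hnd, hl, hc⟩ := h
  have hlen : 0 < l.length := by
    by_contra h0
    have hnil : l = [] := List.eq_nil_of_length_eq_zero (by omega)
    apply hG
    rw [eq_top_iff]
    intro x y hxy
    by_contra hn
    have := (hl s(x, y)).2 ⟨by simpa using hxy, hn⟩
    rw [hnil] at this
    exact List.not_mem_nil this
  obtain ⟨e₁, l', rfl⟩ := List.exists_cons_of_length_pos hlen
  have he₁ := (hl e₁).1 (List.mem_cons_self)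
  refine ⟨e₁, he₁.1, he₁.2, ?_⟩
  intro k
  obtain ⟨c, hcinj, hck⟩ := exists_colouring (n := n) e₁ k
  obtain ⟨f, hf, e', he', hfe'⟩ := hc c hcinj.injOn 0 hlen
  obtain ⟨m, hm, hm1, hm2, hm3⟩ := missing f hf
  have hfe1 : Sym2.map f e' = e₁ := hfe'
  refine ⟨m, hm, ?_, ?_, ?_, ?_⟩
  · rw [← hfe1]; exact (hm3 e' he').symm
  · intro g hg hgm hge
    have := hm1 g hg hgm
    rw [edgeSet_sup, edgeSet_fromEdgeSet] at this
    rcases this with h | ⟨h, _⟩
    · exact h
    · exfalso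
      apply hge
      simpa using h
  · intro g hg g' hg' hgm hgm' hχ
    have t1 : g ∈ (⊤ : SimpleGraph (Fin (n + 3))).edgeSet := edgeSet_mono le_top hg
    have t2 : g' ∈ (⊤ : SimpleGraph (Fin (n + 3))).edgeSet := edgeSet_mono le_top hg'
    apply hm2 g t1 g' t2 hgm hgm'
    simp only [if_pos hg, if_pos hg', hχ]
  · intro g hg hgm hχ
    have t1 : g ∈ (⊤ : SimpleGraph (Fin (n + 3))).edgeSet := edgeSet_mono le_top hg
    have h1 : e₁ ≠ m := by rw [← hfe1]; exact hm3 e' he'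
    have := hm2 g t1 e₁ he₁.1 hgm h1 (by simp only [if_pos hg, if_neg he₁.2, hχ, hck])
    exact he₁.2 (this ▸ hg)

/-- If `(G, χ)` is weakly saturated, then at most one pair is missing. -/
lemma at_most_one {n : ℕ} {G : SimpleGraph (Fin (n + 3))} {χ : Sym2 (Fin (n + 3)) → ℕ}
    (h : WeaklySaturated (KMinus n) G χ) (hG : G ≠ ⊤) :
    ∃ e₁ ∈ (⊤ : SimpleGraph (Fin (n + 3))).edgeSet,
      G.edgeSet = (⊤ : SimpleGraph (Fin (n + 3))).edgeSet \ {e₁} := by
  obtain ⟨e₁, he₁, he₁G, hstep⟩ := first_step h hG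
  refine ⟨e₁, he₁, ?_⟩
  -- there is an edge `g₀` of `G`
  have hg₀ : ∃ g₀, g₀ ∈ G.edgeSet := by
    obtain ⟨m, hm, hme, h1, _, _⟩ := hstep 0
    have hex : ∃ g ∈ (⊤ : SimpleGraph (Fin (n + 3))).edgeSet, g ≠ m ∧ g ≠ e₁ := by
      by_contra hno
      push Not at hno
      have hcard : (⊤ : SimpleGraph (Fin (n + 3))).edgeSet ⊆ {m, e₁} := by
        intro g hg
        by_cases hgm : g = m
        · exact Or.inl hgm
        · exact Or.inr (hno g hg hgm)
      have a1 : s((0 : Fin (n + 3)), 1) ∈ ({m, e₁} : Set _) := hcard (by simp)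
      have a2 : s((0 : Fin (n + 3)), 2) ∈ ({m, e₁} : Set _) := hcard (by
        simpa using ne02 n)
      have a3 : s((1 : Fin (n + 3)), 2) ∈ ({m, e₁} : Set _) := hcard (by
        simpa using ne12 n)
      simp only [Set.mem_insert_iff, Set.mem_singleton_iff] at a1 a2 a3
      rcases a1 with a1 | a1 <;> rcases a2 with a2 | a2 <;> rcases a3 with a3 | a3
      · exact d12 n (a1.trans a2.symm)
      · exact d12 n (a1.trans a2.symm)
      · exact d13 n (a1.trans a3.symm)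
      · exact d23 n (a2.trans a3.symm)
      · exact d23 n (a2.trans a3.symm)
      · exact d13 n (a1.trans a3.symm)
      · exact d12 n (a1.trans a2.symm)
      · exact d12 n (a1.trans a2.symm)
    obtain ⟨g, hg, hgm, hge⟩ := hex
    exact ⟨g, h1 g hg hgm hge⟩
  obtain ⟨g₀, hg₀⟩ := hg₀
  obtain ⟨m, hm, hme, h1, h2, h3⟩ := hstep (χ g₀)
  have hmg : g₀ = m := by
    by_contra hne
    exact h3 g₀ hg₀ hne rfl
  ext g
  constructor
  · intro hg
    refine ⟨edgeSet_mono le_top hg, ?_⟩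
    rintro rfl
    exact he₁G hg
  · rintro ⟨hg, hge⟩
    by_cases hgm : g = m
    · rw [hgm, ← hmg]; exact hg₀
    · exact h1 g hg hgm hge

lemma card_top (n : ℕ) : (⊤ : SimpleGraph (Fin n)).edgeSet.encard = (n.choose 2 : ℕ) := by
  classical
  rw [← coe_edgeFinset, Set.encard_coe_eq_coe_finsetCard, card_edgeFinset_top_eq_card_choose_two,
    Fintype.card_fin]

lemma card_top_diff {n : ℕ} {e : Sym2 (Fin (n + 3))}
    (he : e ∈ (⊤ : SimpleGraph (Fin (n + 3))).edgeSet) :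
    ((⊤ : SimpleGraph (Fin (n + 3))).edgeSet \ {e}).encard = (((n + 3).choose 2 - 1 : ℕ) : ℕ∞) := by
  rw [Set.encard_sdiff_singleton_of_mem he, card_top]
  rfl

/-- The number of edges of a weakly saturated graph. -/
lemma lower {n : ℕ} {G : SimpleGraph (Fin (n + 3))} {χ : Sym2 (Fin (n + 3)) → ℕ}
    (h : WeaklySaturated (KMinus n) G χ) :
    (((n + 3).choose 2 - 1 : ℕ) : ℕ∞) ≤ G.edgeSet.encard := by
  by_cases hG : G = ⊤
  · rw [hG, card_top]
    exact_mod_cast Nat.sub_le _ _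
  · obtain ⟨e₁, he₁, hE⟩ := at_most_one h hG
    rw [hE, card_top_diff he₁]

/-- `K_n⁻` with an injective colouring is weakly saturated. -/
lemma weaklySaturated_KMinus {n : ℕ} (χ : Sym2 (Fin (n + 3)) → ℕ) (hχ : Function.Injective χ) :
    WeaklySaturated (KMinus n) (KMinus n) χ := by
  classical
  have h01 : s((0 : Fin (n + 3)), 1) ∈ (⊤ : SimpleGraph (Fin (n + 3))).edgeSet := by simp
  refine ⟨[s(0, 1)], List.nodup_singleton _, ?_, ?_⟩
  · intro e
    rw [List.mem_singleton, mem_KMinus]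
    constructor
    · rintro rfl
      exact ⟨h01, fun h => h.2 rfl⟩
    · rintro ⟨h1, h2⟩
      by_contra hne
      exact h2 ⟨h1, hne⟩
  · intro c hc i hi
    have hi0 : i = 0 := by simpa using hi
    subst hi0
    have hall : ∀ g ∈ (⊤ : SimpleGraph (Fin (n + 3))).edgeSet,
        g ∈ (KMinus n ⊔ fromEdgeSet {e | e ∈ [s((0 : Fin (n + 3)), 1)].take (0 + 1)}).edgeSet := by
      intro g hg
      rw [edgeSet_sup, edgeSet_fromEdgeSet]
      by_cases h : g = s(0, 1)
      · right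
        refine ⟨by simp [h], ?_⟩
        rw [h]; simp
      · left
        exact mem_KMinus.2 ⟨hg, h⟩
    have hn01 : s((0 : Fin (n + 3)), 1) ∉ (KMinus n).edgeSet := fun h => (mem_KMinus.1 h).2 rfl
    -- the pair that is left out
    have hm : ∃ m ∈ (KMinus n).edgeSet, ∀ g ∈ (KMinus n).edgeSet, χ g = c s(0, 1) → g = m := by
      by_cases hex : ∃ g ∈ (KMinus n).edgeSet, χ g = c s(0, 1)
      · obtain ⟨g, hg, hgc⟩ := hex
        refine ⟨g, hg, ?_⟩
        intro g' _ hg'c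
        exact hχ (hg'c.trans hgc.symm)
      · push Not at hex
        refine ⟨s(0, 2), ?_, ?_⟩
        · rw [mem_KMinus]
          exact ⟨by simpa using ne02 n, (d12 n).symm⟩
        · intro g hg hgc
          exact absurd hgc (hex g hg)
    obtain ⟨m, hmK, hmc⟩ := hm
    refine exists_copy (m := m) (mem_KMinus.1 hmK).1 h01 (mem_KMinus.1 hmK).2.symm
      (fun g hg _ => hall g hg) ?_
    intro g hg g' hg' hgm hgm' hcol
    by_cases hgK : g ∈ (KMinus n).edgeSet <;> by_cases hgK' : g' ∈ (KMinus n).edgeSet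
    · simp only [if_pos hgK, if_pos hgK'] at hcol
      exact hχ hcol
    · have : g' = s(0, 1) := by
        by_contra h; exact hgK' (mem_KMinus.2 ⟨hg', h⟩)
      subst this
      simp only [if_pos hgK, if_neg hgK'] at hcol
      exact absurd (hmc g hgK hcol) hgm
    · have : g = s(0, 1) := by
        by_contra h; exact hgK (mem_KMinus.2 ⟨hg, h⟩)
      subst this
      simp only [if_pos hgK', if_neg hgK] at hcol
      exact absurd (hmc g' hgK' hcol.symm) hgm'
    · have e1 : g = s(0, 1) := by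
        by_contra h; exact hgK (mem_KMinus.2 ⟨hg, h⟩)
      have e2 : g' = s(0, 1) := by
        by_contra h; exact hgK' (mem_KMinus.2 ⟨hg', h⟩)
      rw [e1, e2]

/-- A rainbow `K_n⁻`-free weakly saturated graph is complete. -/
lemma eq_top_of_free {n : ℕ} {G : SimpleGraph (Fin (n + 3))} {χ : Sym2 (Fin (n + 3)) → ℕ}
    (hfree : RainbowFree (KMinus n) G χ) (h : WeaklySaturated (KMinus n) G χ) : G = ⊤ := by
  by_contra hG
  obtain ⟨e₁, he₁, he₁G, hstep⟩ := first_step h hG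
  obtain ⟨e₂, he₂, hE⟩ := at_most_one h hG
  have he12 : e₁ = e₂ := by
    by_contra hne
    apply he₁G
    rw [hE]
    exact ⟨he₁, hne⟩
  subst he12
  -- `χ` is not injective on the edges of `G`
  have hrep : ∃ g₁ ∈ G.edgeSet, ∃ g₂ ∈ G.edgeSet, g₁ ≠ g₂ ∧ χ g₁ = χ g₂ := by
    by_contra hno
    push Not at hno
    apply hfree
    -- a copy missing `e₁`
    have hex : ∃ g, g ∈ G.edgeSet := by
      obtain ⟨m, hm, hme, _⟩ := hstep 0
      exact ⟨m, by rw [hE]; exact ⟨hm, hme⟩⟩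
    obtain ⟨g, hg⟩ := hex
    have hgt : g ∈ (⊤ : SimpleGraph (Fin (n + 3))).edgeSet := edgeSet_mono le_top hg
    have hne : g ≠ e₁ := by rintro rfl; exact he₁G hg
    obtain ⟨f, hf, _⟩ := exists_copy (G := G) (χ := χ) (m := e₁) (e := g) he₁ hgt hne
      (fun g' hg' hne' => by rw [hE]; exact ⟨hg', hne'⟩)
      (fun g' hg' g'' hg'' hne' hne'' hχ => by
        by_contra hdiff
        exact hno g' (by rw [hE]; exact ⟨hg', hne'⟩) g'' (by rw [hE]; exact ⟨hg'', hne''⟩)
          hdiff hχ)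
    exact ⟨f, hf⟩
  obtain ⟨g₁, hg₁, g₂, hg₂, hne, hχ⟩ := hrep
  obtain ⟨m, _, _, _, _, h3⟩ := hstep (χ g₁)
  have m1 : g₁ = m := by
    by_contra hh; exact h3 g₁ hg₁ hh rfl
  have m2 : g₂ = m := by
    by_contra hh; exact h3 g₂ hg₂ hh hχ.symm
  exact hne (m1.trans m2.symm)

lemma weaklySaturated_top {n : ℕ} (H : SimpleGraph W) (χ : Sym2 (Fin n) → ℕ) :
    WeaklySaturated H (⊤ : SimpleGraph (Fin n)) χ := by
  refine ⟨[], List.nodup_nil, ?_, ?_⟩
  · intro e
    simp
  · intro c _ i hi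
    simp at hi

lemma free_const {n : ℕ} (G : SimpleGraph V) :
    RainbowFree (KMinus n) G (fun _ => 0) := by
  rintro ⟨f, hf⟩
  have h02 : s((0 : Fin (n + 3)), 2) ∈ (KMinus n).edgeSet := by
    rw [mem_KMinus]
    exact ⟨by simpa using ne02 n, (d12 n).symm⟩
  have h12 : s((1 : Fin (n + 3)), 2) ∈ (KMinus n).edgeSet := by
    rw [mem_KMinus]
    exact ⟨by simpa using ne12 n, (d13 n).symm⟩
  exact d23 n (hf h02 h12 rfl)

/-- **Main theorem.**  For every `n ≥ 3` and `H = K_n` minus an edge, `rwsat(n,H) = C(n,2) - 1` and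
`rwsat*(n,H) = C(n,2)`.  In particular Q1 has a negative answer. -/
theorem result :
    (∀ n : ℕ, rwsat (n + 3) (KMinus n) = (((n + 3).choose 2 - 1 : ℕ) : ℕ∞) ∧
      rwsatStar (n + 3) (KMinus n) = ((n + 3).choose 2 : ℕ)) ∧
    ¬ (∀ (k : ℕ) (H : SimpleGraph (Fin k)), H.edgeSet.Nonempty → ∀ n : ℕ, 1 ≤ n →
      rwsatStar n H = rwsat n H) := by
  have h1 : ∀ n : ℕ, rwsat (n + 3) (KMinus n) = (((n + 3).choose 2 - 1 : ℕ) : ℕ∞) ∧
      rwsatStar (n + 3) (KMinus n) = ((n + 3).choose 2 : ℕ) := by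
    intro n
    constructor
    · apply le_antisymm
      · obtain ⟨χ, hχ⟩ := Countable.exists_injective_nat (Sym2 (Fin (n + 3)))
        apply sInf_le
        refine ⟨KMinus n, χ, weaklySaturated_KMinus χ hχ, ?_⟩
        have : (KMinus n).edgeSet = (⊤ : SimpleGraph (Fin (n + 3))).edgeSet \ {s(0, 1)} := by
          ext e
          rw [mem_KMinus]
          rfl
        rw [this, card_top_diff (by simp)]
      · apply le_sInf
        rintro k ⟨G, χ, hws, rfl⟩
        exact lower hws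
    · apply le_antisymm
      · apply sInf_le
        exact ⟨⊤, fun _ => 0, free_const _, weaklySaturated_top _ _, card_top _⟩
      · apply le_sInf
        rintro k ⟨G, χ, hfree, hws, rfl⟩
        rw [eq_top_of_free hfree hws, card_top]
  refine ⟨h1, ?_⟩
  intro hall
  have h2 := hall 3 (KMinus 0) ⟨s(0, 2), by
    rw [mem_KMinus]
    refine ⟨by simp, ?_⟩
    intro h
    rw [Sym2.eq_iff] at h
    simp at h⟩ 3 (by norm_num)
  have h3 := h1 0
  have h2' : (((0 + 3).choose 2 : ℕ) : ℕ∞) = (((0 + 3).choose 2 - 1 : ℕ) : ℕ∞) :=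
    h3.2.symm.trans (h2.trans h3.1)
  have h4 : (Nat.choose 3 2 : ℕ) = (Nat.choose 3 2 - 1 : ℕ) := by exact_mod_cast h2'
  simp [Nat.choose] at h4

end Pool.Agent.Results.MP_e47ea7_co.RainbowFreeCostsMore
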